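import Pool.Agent.Y140.AW.Stm

/-!
# AW-PAR: parity
-/

set_option autoImplicit false

namespace Pool.Agent.Y436.AW

open Finset

/-- the exponent of the sign -/
lemma even_card (m : ℕ) : Even (∑ l : Fin (4 * m), (Ioi l).card) := by
  have h1 : ∑ l : Fin (4 * m), (Ioi l).card = ∑ i ∈ range (4 * m), i := by
    rw [← Finset.sum_range_reflect]
    rw [← Fin.sum_univ_eq_sum_range (fun i => 4 * m - 1 - i) (4 * m)]
    refine sum_congr rfl fun l _ => ?_
    rw [Fin.card_Ioi]
  rw [h1]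
  have h2 := Finset.sum_range_id_mul_two (4 * m)
  refine ⟨m * (4 * m - 1), ?_⟩
  have h3 : 4 * m * (4 * m - 1) = 4 * (m * (4 * m - 1)) := by ring
  omega

lemma prod_eq {N : Type} [Field N] (m : ℕ) (x : Fin (4 * m) → N) :
    ∏ l, ∏ j ∈ univ.erase l, (x l - x j) = (Matrix.vandermonde x).det ^ 2 := by
  have h1 : ∀ l : Fin (4 * m), ∏ j ∈ univ.erase l, (x l - x j) =
      (∏ j ∈ Ioi l, (x l - x j)) * ∏ j ∈ Iio l, (x l - x j) := by
    intro l
    rw [← prod_union]
    · refine prod_congr ?_ fun _ _ => rfl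
      ext j
      simp only [mem_erase, mem_univ, and_true, mem_union, mem_Ioi, mem_Iio]
      constructor
      · intro h
        rcases lt_or_gt_of_ne h with h | h
        · exact Or.inr h
        · exact Or.inl h
      · rintro (h | h)
        · exact h.ne'
        · exact h.ne
    · rw [disjoint_left]
      intro j hj hj'
      rw [mem_Ioi] at hj
      rw [mem_Iio] at hj'
      exact absurd hj hj'.not_gt
  rw [prod_congr rfl fun l _ => h1 l, prod_mul_distrib]
  have h2 : ∏ l : Fin (4 * m), ∏ j ∈ Iio l, (x l - x j) =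
      ∏ j : Fin (4 * m), ∏ l ∈ Ioi j, (x l - x j) := by
    apply prod_comm'
    intro a b
    simp
  have h3 : ∏ l : Fin (4 * m), ∏ j ∈ Ioi l, (x l - x j) =
      ∏ l : Fin (4 * m), ∏ j ∈ Ioi l, (x j - x l) := by
    have h4 : ∀ l : Fin (4 * m), ∏ j ∈ Ioi l, (x l - x j) =
        (-1) ^ (Ioi l).card * ∏ j ∈ Ioi l, (x j - x l) := by
      intro l
      rw [← prod_const, ← prod_mul_distrib]
      refine prod_congr rfl fun j _ => ?_
      ring
    rw [prod_congr rfl fun l _ => h4 l, prod_mul_distrib, prod_pow_eq_pow_sum,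
      (even_card m).neg_one_pow, one_mul]
  rw [h2, h3, Matrix.det_vandermonde, sq]

theorem t_par : Pool.Agent.Y140.AW.St_par := by
  intro p N _ n d hn h2 x δ z s c e hx hc _ _ hz hrel σ π hσx hσδ hσs hσc hσe
  obtain ⟨m, rfl⟩ := hn
  set V := (Matrix.vandermonde x).det with hV
  have hV0 : V ≠ 0 := Matrix.det_vandermonde_ne_zero_iff.2 hx
  have hσV : σ V = ((Equiv.Perm.sign π : ℤ) : N) * V := by
    have h1 : σ V = (σ : N →+* N) V := rfl
    rw [h1, hV, RingHom.map_det, ← Matrix.det_permute]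
    congr 1
    ext i j
    simp [Matrix.vandermonde_apply, hσx]
  -- the square root
  obtain ⟨g, hg⟩ : ∃ g : Fin (4 * m) → N, g = fun l => (δ l ^ 2) ^ p * ((δ l ^ 2) ^ p) ^ (d - 1) :=
    ⟨_, rfl⟩
  obtain ⟨W, hW⟩ : ∃ W : N, W = (∏ l, g l) * (s ^ (d - 1)) ^ (2 * m) * e ^ p := ⟨_, rfl⟩
  have hσW : σ W = W := by
    rw [hW, map_mul, map_mul, map_pow, map_pow, map_pow, hσs, hσe, map_prod]
    congr 2
    rw [← Equiv.prod_comp π g]
    refine prod_congr rfl fun l _ => ?_
    rw [hg]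
    simp only [map_mul, map_pow, hσδ]
  have hsq : (c ^ (2 * m) * V) ^ 2 = W ^ 2 := by
    have h1 : ∏ l : Fin (4 * m), (c * ∏ j ∈ univ.erase l, (x l - x j)) =
        ∏ l : Fin (4 * m), (g l ^ 2 * s ^ (d - 1) * z l ^ p) := by
      refine prod_congr rfl fun l _ => ?_
      rw [hrel l, hg]
      simp only
      rw [mul_pow s]
      have h3 : (δ l ^ 4) ^ p = ((δ l ^ 2) ^ p) ^ 2 := by
        rw [← pow_mul, ← pow_mul, ← pow_mul]
        congr 1
        ring
      rw [h3]
      ring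
    rw [prod_mul_distrib, prod_mul_distrib, prod_mul_distrib, prod_const, prod_const, prod_eq,
      prod_pow, prod_pow, hz, card_univ, Fintype.card_fin] at h1
    rw [hW]
    have h4 : c ^ (4 * m) = (c ^ (2 * m)) ^ 2 := by
      rw [← pow_mul]
      congr 1
      ring
    have h5 : (s ^ (d - 1)) ^ (4 * m) = ((s ^ (d - 1)) ^ (2 * m)) ^ 2 := by
      rw [← pow_mul _ (2 * m)]
      congr 1
      ring
    rw [h4, h5] at h1
    calc (c ^ (2 * m) * V) ^ 2 = (c ^ (2 * m)) ^ 2 * V ^ 2 := by ring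
      _ = _ := h1
      _ = _ := by ring
  have hfix : σ (c ^ (2 * m) * V) = c ^ (2 * m) * V := by
    rcases sq_eq_sq_iff_eq_or_eq_neg.1 hsq with h | h
    · rw [h, hσW]
    · rw [h, map_neg, hσW]
  rw [map_mul, map_pow, hσc, hσV] at hfix
  have hfix2 : ((Equiv.Perm.sign π : ℤ) : N) * V = V :=
    mul_left_cancel₀ (pow_ne_zero _ hc) hfix
  rcases Int.units_eq_one_or (Equiv.Perm.sign π) with h | h
  · exact h
  · exfalso
    rw [h] at hfix2
    have h5 : (2 : N) * V = 0 := by
      push_cast at hfix2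
      linear_combination (-1 : N) * hfix2
    rcases mul_eq_zero.1 h5 with h6 | h6
    · exact h2 h6
    · exact hV0 h6

end Pool.Agent.Y436.AW
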